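import Pool.Agent.BU.Final
import Pool.Agent.BB.Tree

set_option autoImplicit false

open Filter Topology Pool.Agent.SawTree Pool.Agent.BB

namespace Pool.Agent.Results.MP_f8169a_pr.BridgeBound

/-- The number `c_n` of `n`-step self-avoiding walks of the square lattice satisfies
`c_n ≤ μ ^ n * exp (C * n ^ (1 / 3))` for all `n`, where `μ` is the connective constant; hence the
walk on the self-avoiding tree of the square lattice with the conductances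
`μ ^ (-m) * exp (- C * m ^ (1 / 3))` is recurrent (no unit flow of finite energy). -/
theorem result :
    ∃ μ C : ℝ, 0 < μ ∧
      Tendsto (fun n : ℕ => (walkCount n : ℝ) ^ (1 / (n : ℝ))) atTop (𝓝 μ) ∧
      (∀ n : ℕ, (walkCount n : ℝ) ≤ μ ^ n * Real.exp (C * (n : ℝ) ^ ((1 : ℝ) / 3))) ∧
      ¬ ∃ θ : List (ℤ × ℤ) → ℝ,
        (∀ w, ¬ SqSaw w → θ w = 0) ∧ θ [((0 : ℤ), (0 : ℤ))] = 1 ∧
        (∀ w, SqSaw w → θ w = (([((1 : ℤ), (0 : ℤ)), ((-1 : ℤ), (0 : ℤ)), ((0 : ℤ), (1 : ℤ)),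
            ((0 : ℤ), (-1 : ℤ))] : List (ℤ × ℤ)).map
            (fun d => θ ((w.headD ((0 : ℤ), (0 : ℤ)) + d) :: w))).sum) ∧
        Summable (fun w : List (ℤ × ℤ) => θ w ^ 2 * (μ ^ w.length *
          Real.exp (C * (w.length : ℝ) ^ ((1 : ℝ) / 3)))) := by
  obtain ⟨μ, hμ, hle, hlim⟩ := exists_mu
  obtain ⟨C, hC, hbound⟩ := Pool.Agent.BU.cw_le_third μ hμ hlim
  refine ⟨μ, C, hμ, ?_, ?_, ?_⟩
  · simp_rw [walkCount_eq_cw]
    exact hlim
  · intro n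
    rw [walkCount_eq_cw]
    exact hbound n
  · apply no_flow_of_le
      (fun m : ℕ => μ ^ m * Real.exp (C * (m : ℝ) ^ ((1 : ℝ) / 3))) (fun n => by positivity) μ hμ
    intro n
    have h1 := hbound n
    have h2 : (n : ℝ) ^ ((1 : ℝ) / 3) ≤ ((n + 1 : ℕ) : ℝ) ^ ((1 : ℝ) / 3) := by
      apply Real.rpow_le_rpow (by positivity) _ (by norm_num)
      push_cast
      linarith
    calc μ * (cw n : ℝ)
        ≤ μ * (μ ^ n * Real.exp (C * (n : ℝ) ^ ((1 : ℝ) / 3))) := by gcongr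
      _ = μ ^ (n + 1) * Real.exp (C * (n : ℝ) ^ ((1 : ℝ) / 3)) := by rw [pow_succ]; ring
      _ ≤ μ ^ (n + 1) * Real.exp (C * ((n + 1 : ℕ) : ℝ) ^ ((1 : ℝ) / 3)) := by gcongr

end Pool.Agent.Results.MP_f8169a_pr.BridgeBound
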