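import Pool.Agent.SawHalf.Main

set_option autoImplicit false

open Filter MeasureTheory Pool.Agent.SawHalf

namespace Pool.Agent.Results.MP_f8169a_pr.ExceptionalRays

/-- The tree of all finite self-avoiding walks of the square lattice, at every bias `c` such that
the biased walk is recurrent for all smaller biases (in particular at the critical one).
(1) A finite measure of finite energy on the infinite self-avoiding walks gives measure zero to the
walks that are bounded below in one of countably many real directions, or that, started from one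
of their sites, have in some integer direction a sequence of sides in a given set of zero capacity.
(2) A subtree all of whose infinite walks are of this kind is recurrent.
(3) The sequences of sides with sparse turns form a set of zero capacity. -/
theorem result (c : ℝ) (hc : 0 < c)
    (hlow : ∀ b : ℝ, 0 < b → b < c → ¬ HasFlow {w | IsWalk w} b)
    (V : Set (ℝ × ℝ)) (hV : V.Countable) (hV0 : ((0 : ℝ), (0 : ℝ)) ∉ V)
    (A : ℤ × ℤ → Set (ℕ → Bool)) (hA : ∀ v, LogNull (A v)) :
    (∀ P : Measure (ℕ → ℤ × ℤ), IsFiniteMeasure P → (∀ᵐ γ ∂P, ∀ n, IsWalk (ini γ n)) →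
      Summable (fun w : List (ℤ × ℤ) => P.real {γ | ∃ n, ini γ n = w} ^ 2 / c ^ w.length) →
        ∀ᵐ γ ∂P, ¬ Thin V A γ) ∧
    (∀ S : Set (List (ℤ × ℤ)), (∀ w ∈ S, IsWalk w) →
      (∀ (p : ℤ × ℤ) (w : List (ℤ × ℤ)), w ≠ [] → p :: w ∈ S → w ∈ S) →
      (∀ γ : ℕ → ℤ × ℤ, (∀ n, ini γ n ∈ S) → Thin V A γ) → ¬ HasFlow S c) ∧
    (∀ ε : ℝ, 0 < ε → LogNull {a | ∃ᶠ L : ℕ in atTop,
      (∏ i ∈ (Finset.range L).filter (fun i => a i ≠ a (i + 1)), ((i : ℝ) + 1)) ^ (1 + ε) ≤ L}) := by
  have hcr := le_crit hc hlow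
  refine ⟨?_, ?_, fun ε hε => logNull_turns ε hε⟩
  · intro P hP h1 h2
    exact ae_not_thin hc hcr hV hV0 hA P h1 h2
  · intro S hS hT hray
    exact subtree_recurrent hc hcr hV hV0 hA hS hT hray

end Pool.Agent.Results.MP_f8169a_pr.ExceptionalRays
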