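import Pool.Agent.SawTree.Bridge

set_option autoImplicit false

open scoped ENNReal
open Filter Topology Pool.Agent.SawTree

namespace Pool.Agent.Results.MP_f8169a_pr.HalfPlaneRecurrent

/-- The half-plane case of the question: on the tree of finite self-avoiding walks from the origin
that stay in `{y ≥ 0}` (a walk is the list of its sites, endpoint first), the biased walk is
recurrent at the critical bias. Recurrence for bias `b` is the absence of a unit flow to infinity
with finite energy for the conductances `b ^ |w|`. -/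
theorem result :
  ∀ R : ℝ → Prop,
    (∀ b : ℝ, R b ↔ ¬ ∃ θ : List (ℤ × ℤ) → ℝ,
      (∀ w : List (ℤ × ℤ),
        ¬ (w.Nodup ∧ w.getLast? = some ((0 : ℤ), (0 : ℤ)) ∧
          (∀ i : ℕ, i + 1 < w.length →
            |(w.getD i ((0 : ℤ), (0 : ℤ))).1 - (w.getD (i + 1) ((0 : ℤ), (0 : ℤ))).1|
              + |(w.getD i ((0 : ℤ), (0 : ℤ))).2 - (w.getD (i + 1) ((0 : ℤ), (0 : ℤ))).2| = 1) ∧
          (∀ p ∈ w, (0 : ℤ) ≤ p.2)) → θ w = 0) ∧
      θ [((0 : ℤ), (0 : ℤ))] = 1 ∧
      (∀ w : List (ℤ × ℤ),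
        (w.Nodup ∧ w.getLast? = some ((0 : ℤ), (0 : ℤ)) ∧
          (∀ i : ℕ, i + 1 < w.length →
            |(w.getD i ((0 : ℤ), (0 : ℤ))).1 - (w.getD (i + 1) ((0 : ℤ), (0 : ℤ))).1|
              + |(w.getD i ((0 : ℤ), (0 : ℤ))).2 - (w.getD (i + 1) ((0 : ℤ), (0 : ℤ))).2| = 1) ∧
          (∀ p ∈ w, (0 : ℤ) ≤ p.2)) →
        θ w = (([((1 : ℤ), (0 : ℤ)), ((-1 : ℤ), (0 : ℤ)), ((0 : ℤ), (1 : ℤ)), ((0 : ℤ), (-1 : ℤ))]
                : List (ℤ × ℤ)).map (fun d => θ ((w.headD ((0 : ℤ), (0 : ℤ)) + d) :: w))).sum) ∧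
      Summable (fun w : List (ℤ × ℤ) => θ w ^ 2 / b ^ w.length)) →
    ∀ c : ℝ, 0 < c → (∀ b : ℝ, 0 < b → b < c → R b) → (∀ b : ℝ, c < b → ¬ R b) → R c := by
  classical
  intro R hR c hc hlow hup
  have hRb : ∀ b : ℝ, R b ↔ ¬ ∃ θ : List (ℤ × ℤ) → ℝ,
      (∀ w, ¬ Tr w → θ w = 0) ∧ θ [((0 : ℤ), (0 : ℤ))] = 1 ∧
      (∀ w, Tr w → θ w = (([((1 : ℤ), (0 : ℤ)), ((-1 : ℤ), (0 : ℤ)), ((0 : ℤ), (1 : ℤ)),
          ((0 : ℤ), (-1 : ℤ))] : List (ℤ × ℤ)).map
          (fun d => θ ((w.headD ((0 : ℤ), (0 : ℤ)) + d) :: w))).sum) ∧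
      Summable (fun w : List (ℤ × ℤ) => θ w ^ 2 / b ^ w.length) := hR
  clear hR
  by_cases hcrit : ENNReal.ofReal c ≤ crit
  · rw [hRb]
    rintro ⟨θ, h0, h1, h2, h3⟩
    refine no_flow hc hcrit (fun u => θ (pr u.reverse)) ?_ ?_ ?_ ?_
    · intro u hu
      apply h0
      rw [tr_pr, List.reverse_reverse]
      exact hu
    · simpa using h1
    · intro u hu
      have hT : Tr (pr u.reverse) := by
        rw [tr_pr, List.reverse_reverse]; exact hu
      show θ (pr u.reverse) = ∑ d : Fin 4, θ (pr (u ++ [d]).reverse)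
      rw [h2 _ hT, sum_dirs (fun d => θ (((pr u.reverse).headD ((0 : ℤ), (0 : ℤ)) + d)
        :: pr u.reverse))]
      apply Finset.sum_congr rfl
      intro d _
      rw [pr_step, List.reverse_append, List.reverse_singleton, List.singleton_append]
    · have hinj : Function.Injective (fun u : Wd => pr u.reverse) := by
        intro u v h
        exact List.reverse_injective (pr_injective h)
      have := h3.comp_injective hinj
      refine this.congr ?_
      intro u
      simp only [Function.comp]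
      rw [pr_length, List.length_reverse]
  · push Not at hcrit
    exfalso
    obtain ⟨y, hy1, hy2⟩ := exists_between hcrit
    have hyt : y ≠ ⊤ := ne_top_of_lt hy2
    set b := y.toReal with hb
    have hyb : y = ENNReal.ofReal b := (ENNReal.ofReal_toReal hyt).symm
    have hb0 : 0 < b := by
      have : 0 < y := lt_of_le_of_lt zero_le hy1
      exact ENNReal.toReal_pos this.ne' hyt
    have hbc : b < c := by
      rw [hyb] at hy2
      exact (ENNReal.ofReal_lt_ofReal_iff hc).mp hy2
    have hRb' := hlow b hb0 hbc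
    rw [hRb] at hRb'
    apply hRb'
    obtain ⟨φ, g0, g1, g2, g3⟩ := exists_flow hb0 (by rw [← hyb]; exact hy1)
    -- extend by zero
    set θ : List (ℤ × ℤ) → ℝ := fun w =>
      if h : ∃ r, w = pr r then φ h.choose.reverse else 0 with hθ
    have hθpr : ∀ r, θ (pr r) = φ r.reverse := by
      intro r
      have h : ∃ s, pr r = pr s := ⟨r, rfl⟩
      have h' : θ (pr r) = φ h.choose.reverse := by
        rw [hθ]; simp only; rw [dif_pos h]
      rw [h', ← pr_injective h.choose_spec]
    have hθz : ∀ w, (¬ ∃ r, w = pr r) → θ w = 0 := by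
      intro w hw
      rw [hθ]; simp only; rw [dif_neg hw]
    refine ⟨θ, ?_, ?_, ?_, ?_⟩
    · intro w hw
      by_cases h : ∃ r, w = pr r
      · obtain ⟨r, rfl⟩ := h
        rw [hθpr]
        apply g0
        rwa [← tr_pr]
      · exact hθz w h
    · have := hθpr []
      rw [pr_nil] at this
      rw [this]
      simpa using g1
    · intro w hw
      obtain ⟨r, rfl⟩ := exists_pr w hw
      rw [sum_dirs (fun d => θ (((pr r).headD ((0 : ℤ), (0 : ℤ)) + d) :: pr r)), hθpr,
        g2 _ ((tr_pr r).mp hw)]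
      apply Finset.sum_congr rfl
      intro d _
      rw [pr_step, hθpr, List.reverse_cons]
    · have hinj : Function.Injective (fun u : Wd => pr u.reverse) := by
        intro u v h
        exact List.reverse_injective (pr_injective h)
      rw [← hinj.summable_iff]
      · refine g3.congr ?_
        intro u
        simp only [Function.comp]
        rw [hθpr, pr_length, List.length_reverse, List.reverse_reverse]
      · intro w hw
        rw [hθz w]
        · simp
        · rintro ⟨r, rfl⟩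
          apply hw
          exact ⟨r.reverse, by simp⟩

end Pool.Agent.Results.MP_f8169a_pr.HalfPlaneRecurrent
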