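import Pool.Agent.SawHalf.Compare

set_option autoImplicit false

open Pool.Agent.SawHalf

namespace Pool.Agent.Results.MP_f8169a_pr.SideComparison

/-- The tree of all finite self-avoiding walks of the square lattice, at every bias `c` such that
the biased walk is recurrent for all smaller biases (in particular at the critical one).
(1) For every direction and every nonincreasing positive weight `K` on binary words, a finite
energy unit flow for the conductances `c ^ |w| * K (sides of w)` on a subtree gives one on the
binary tree with the conductances `K`, carried by the initial parts of the words of sides.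
(2) If the inverse products of `1 + g` have infinite sum then the full tree is recurrent for the
conductances `c ^ |w|` multiplied by the product of `g l` over the turns `l` of the word of
sides. -/
theorem result (c : ℝ) (hc : 0 < c)
    (hlow : ∀ b : ℝ, 0 < b → b < c → ¬ Flows {w | IsWalk w} (fun w => b ^ w.length))
    (v : ℤ × ℤ) (hv : v ≠ (0, 0)) :
    (∀ K : List Bool → ℝ, (∀ x, 0 < K x) → (∀ x y, K (x ++ y) ≤ K x) →
      ∀ S : Set (List (ℤ × ℤ)), (∀ w ∈ S, IsWalk w) →
        (∀ (p : ℤ × ℤ) (w : List (ℤ × ℤ)), w ≠ [] → p :: w ∈ S → w ∈ S) →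
          Flows S (fun w => c ^ w.length * K (sides v w)) →
            BinFlows {x | ∃ w ∈ S, x <+: sides v w} K) ∧
    (∀ g : ℕ → ℝ, (∀ i, 0 < g i ∧ g i ≤ 1) →
      ¬ Summable (fun l : ℕ => (∏ i ∈ Finset.range l, (1 + g i))⁻¹) →
        ¬ Flows {w | IsWalk w} (fun w => c ^ w.length * turns g (sides v w))) := by
  have hcr := le_crit hc hlow
  refine ⟨?_, ?_⟩
  · intro K hK0 hK1 S hS hT h
    exact binFlows_of_flows hc hcr hv hK0 hK1 hS hT h
  · intro g hg hdiv
    exact no_flows_turns hc hcr hv hg hdiv

end Pool.Agent.Results.MP_f8169a_pr.SideComparison
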